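import Pool.Agent.Helper30.UP.St

/-!
# Project UP, module C8: intersections and number of the subspaces
-/

set_option autoImplicit false

noncomputable section

namespace Pool.Agent.Helper87.UP

open Finset Pool.Agent.Helper30.UP
open scoped Classical

/-- `|W ⊔ W'| |W ⊓ W'| = |W| |W'|` -/
theorem card_sup_inf {c : ℕ} (W W' : Submodule (ZMod 2) (E c)) :
    Nat.card ↥(W ⊔ W') * Nat.card ↥(W ⊓ W') = Nat.card W * Nat.card W' := by
  have h : ∀ U : Submodule (ZMod 2) (E c), Nat.card U = 2 ^ Module.finrank (ZMod 2) U := by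
    intro U
    rw [Module.natCard_eq_pow_finrank (K := ZMod 2)]
    simp
  rw [h, h, h, h, ← pow_add, ← pow_add, Submodule.finrank_sup_add_finrank_inf_eq]

theorem perp_inf_perp {c : ℕ} (W W' : Submodule (ZMod 2) (E c)) :
    perp W ⊓ perp W' = perp (W ⊔ W') := by
  apply le_antisymm
  · intro v hv x hx
    obtain ⟨a, ha, b, hb, rfl⟩ := Submodule.mem_sup.1 hx
    rw [add_dotProduct, hv.1 a ha, hv.2 b hb, add_zero]
  · exact le_inf (perp_anti le_sup_left) (perp_anti le_sup_right)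

theorem hC8 (h1 : StC1) (h6 : StC6) : StC8 := by
  intro K T δ κ hK hT hδ hκ
  obtain ⟨κ6, hκ6, H6⟩ := h6 K T δ κ hK hT hδ hκ
  have hκ' : 0 < 4 * κ / δ ^ 2 := by positivity
  refine ⟨4 * κ / δ ^ 2, ⌈(K : ℝ) * (K + 1) ^ 2 * (4 * κ / δ ^ 2)⌉₊ + 1, hκ', ?_⟩
  intro n hn c D s F hH hF
  obtain ⟨hD0, _, hN, _, _, _⟩ := h1 K T c n D s hK hT hH
  have hDs : (0 : ℝ) < (Ds s).card := by
    have : 0 < (Ds s).card := card_pos.2 ⟨0, hD0⟩
    exact_mod_cast this
  -- the intersections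
  have hint : ∀ W ∈ F, ∀ W' ∈ F, W ≠ W' →
      (Nat.card ↥(perp W ⊓ perp W') : ℝ) ≤ 4 * κ / δ ^ 2 := by
    intro W hW W' hW' hne
    have e1 := card_perp (W ⊔ W')
    have e2 := card_sup_inf W W'
    rw [perp_inf_perp]
    have e1' : (Nat.card ↥(W ⊔ W') : ℝ) * Nat.card (perp (W ⊔ W')) = 2 ^ c := by exact_mod_cast e1
    have e2' : (Nat.card ↥(W ⊔ W') : ℝ) * Nat.card ↥(W ⊓ W') = Nat.card W * Nat.card W' := by
      exact_mod_cast e2
    have hi : (0 : ℝ) < Nat.card ↥(W ⊓ W') := by exact_mod_cast Pool.Agent.Helper30.UP.card_pos (W ⊓ W')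
    have b1 := (hF.1 W hW).2.1
    have b2 := (hF.1 W' hW').2.1
    have b3 := hF.2.1 W hW W' hW' hne
    have hp : (0 : ℝ) ≤ Nat.card (perp (W ⊔ W')) := Nat.cast_nonneg _
    -- |perp| |W| |W'| = 2 ^ c |W ⊓ W'|
    have e3 : (Nat.card (perp (W ⊔ W')) : ℝ) * (Nat.card W * Nat.card W') =
        2 ^ c * Nat.card ↥(W ⊓ W') := by
      rw [← e2', ← e1']
      ring
    have e4 : (2 : ℝ) ^ c * Nat.card ↥(W ⊓ W') ≤ 4 * κ * (Ds s).card ^ 2 := by
      calc (2 : ℝ) ^ c * Nat.card ↥(W ⊓ W') ≤ (4 * n * (Ds s).card) * Nat.card ↥(W ⊓ W') :=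
            mul_le_mul_of_nonneg_right hN hi.le
        _ = 4 * (Ds s).card * (n * Nat.card ↥(W ⊓ W')) := by ring
        _ ≤ 4 * (Ds s).card * (κ * (Ds s).card) := by
            apply mul_le_mul_of_nonneg_left b3
            positivity
        _ = 4 * κ * (Ds s).card ^ 2 := by ring
    have e5 : (Nat.card (perp (W ⊔ W')) : ℝ) * (δ ^ 2 * (Ds s).card ^ 2) ≤
        (Nat.card (perp (W ⊔ W')) : ℝ) * (Nat.card W * Nat.card W') := by
      apply mul_le_mul_of_nonneg_left _ hp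
      calc δ ^ 2 * ((Ds s).card : ℝ) ^ 2 = (δ * (Ds s).card) * (δ * (Ds s).card) := by ring
        _ ≤ Nat.card W * Nat.card W' := by
            apply mul_le_mul b1 b2
            · positivity
            · exact Nat.cast_nonneg _
    rw [le_div_iff₀ (by positivity)]
    have hsq : (0 : ℝ) < (Ds s).card ^ 2 := by positivity
    have e6 : (Nat.card (perp (W ⊔ W')) : ℝ) * δ ^ 2 * (Ds s).card ^ 2 ≤ 4 * κ * (Ds s).card ^ 2 := by
      calc _ = (Nat.card (perp (W ⊔ W')) : ℝ) * (δ ^ 2 * (Ds s).card ^ 2) := by ring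
        _ ≤ _ := e5
        _ = _ := e3
        _ ≤ _ := e4
    exact le_of_mul_le_mul_right e6 hsq
  refine ⟨?_, hint⟩
  by_contra hcon
  obtain ⟨F', hF', hF'c⟩ := exists_subset_card_eq (show K + 1 ≤ F.card by omega)
  -- columns in `perp W`
  let A : Submodule (ZMod 2) (E c) → Finset (Fin n) := fun W => univ.filter (fun i => s i ∈ perp W)
  have hA1 : ∀ W ∈ F', D ≤ (A W).card := fun W hW =>
    (H6 c n D s W hH (hF.1 W (hF' hW))).2.1
  have hA2 : ∀ W ∈ F', ∀ W' ∈ F', W ≠ W' → ((A W ∩ A W').card : ℝ) ≤ 4 * κ / δ ^ 2 := by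
    intro W hW W' hW' hne
    refine le_trans ?_ (hint W (hF' hW) W' (hF' hW') hne)
    have : (A W ∩ A W').card ≤ Nat.card ↥(perp W ⊓ perp W') := by
      rw [← card_el]
      refine card_le_card_of_injOn s ?_ hH.2.2.1.1.injOn
      intro i hi
      have hi' := mem_inter.1 hi
      have ha := (mem_filter.1 hi'.1).2
      have hb := (mem_filter.1 hi'.2).2
      exact (mem_el _ _).2 ⟨ha, hb⟩
    exact_mod_cast this
  -- double counting
  let m : Fin n → ℕ := fun i => (F'.filter (fun W => i ∈ A W)).card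
  have hsum1 : ∑ W ∈ F', (A W).card = ∑ i, m i := by
    have e : ∀ W ∈ F', (A W).card = ∑ i : Fin n, if i ∈ A W then 1 else 0 := by
      intro W _
      rw [← card_filter]
      congr 1
      ext i
      simp
    rw [sum_congr rfl e, sum_comm]
    refine sum_congr rfl ?_
    intro i _
    rw [← card_filter]
  have hsum2 : ∑ p ∈ F'.offDiag, (A p.1 ∩ A p.2).card = ∑ i, (m i * m i - m i) := by
    have e : ∀ p ∈ F'.offDiag, (A p.1 ∩ A p.2).card =
        ∑ i : Fin n, if i ∈ A p.1 ∧ i ∈ A p.2 then 1 else 0 := by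
      intro p _
      rw [← card_filter]
      congr 1
      ext i
      simp
    rw [sum_congr rfl e, sum_comm]
    refine sum_congr rfl ?_
    intro i _
    rw [← card_filter]
    have : F'.offDiag.filter (fun p => i ∈ A p.1 ∧ i ∈ A p.2) =
        (F'.filter (fun W => i ∈ A W)).offDiag := by
      ext p
      simp only [mem_filter, mem_offDiag]
      tauto
    rw [this, offDiag_card]
  have hm : ∀ i, m i ≤ 1 + (m i * m i - m i) := by
    intro i
    rcases Nat.eq_zero_or_pos (m i) with h | h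
    · omega
    · obtain ⟨k, hk⟩ : ∃ k, m i = k + 1 := ⟨m i - 1, by omega⟩
      rw [hk]
      have : (k + 1) * (k + 1) - (k + 1) = (k + 1) * k := by
        rw [Nat.mul_succ]
        omega
      rw [this]
      nlinarith
  have htot : ((K + 1 : ℕ) : ℝ) * D ≤ n + (K + 1) ^ 2 * (4 * κ / δ ^ 2) := by
    have t1 : (K + 1) * D ≤ ∑ W ∈ F', (A W).card := by
      rw [← hF'c, ← smul_eq_mul]
      exact card_nsmul_le_sum F' _ D hA1
    have t2 : ∑ i, m i ≤ n + ∑ p ∈ F'.offDiag, (A p.1 ∩ A p.2).card := by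
      rw [hsum2]
      calc ∑ i, m i ≤ ∑ i : Fin n, (1 + (m i * m i - m i)) := sum_le_sum fun i _ => hm i
        _ = n + ∑ i, (m i * m i - m i) := by
            rw [sum_add_distrib]
            simp
    have t3 : ((∑ p ∈ F'.offDiag, (A p.1 ∩ A p.2).card : ℕ) : ℝ) ≤
        (K + 1) ^ 2 * (4 * κ / δ ^ 2) := by
      push_cast
      calc ∑ p ∈ F'.offDiag, ((A p.1 ∩ A p.2).card : ℝ) ≤
            ∑ _p ∈ F'.offDiag, (4 * κ / δ ^ 2) := by
            refine sum_le_sum ?_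
            intro p hp
            obtain ⟨q1, q2, q3⟩ := mem_offDiag.1 hp
            exact hA2 p.1 q1 p.2 q2 q3
        _ = (F'.offDiag.card : ℝ) * (4 * κ / δ ^ 2) := by rw [sum_const, nsmul_eq_mul]
        _ ≤ (K + 1) ^ 2 * (4 * κ / δ ^ 2) := by
            apply mul_le_mul_of_nonneg_right _ hκ'.le
            have : F'.offDiag.card ≤ (K + 1) ^ 2 := by
              rw [offDiag_card, hF'c, sq]
              exact Nat.sub_le _ _
            exact_mod_cast this
    have t4 : (K + 1) * D ≤ n + ∑ p ∈ F'.offDiag, (A p.1 ∩ A p.2).card := by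
      rw [hsum1] at t1
      exact t1.trans t2
    have t5 : (((K + 1) * D : ℕ) : ℝ) ≤ ((n + ∑ p ∈ F'.offDiag, (A p.1 ∩ A p.2).card : ℕ) : ℝ) := by
      exact_mod_cast t4
    push_cast at t5 t3 ⊢
    linarith
  have hnK : (n : ℝ) ≤ K * D := by exact_mod_cast hH.2.1
  have hDle : (D : ℝ) ≤ (K + 1) ^ 2 * (4 * κ / δ ^ 2) := by
    push_cast at htot
    linarith
  have hK0 : (0 : ℝ) ≤ K := Nat.cast_nonneg _
  have hle : (n : ℝ) ≤ K * (K + 1) ^ 2 * (4 * κ / δ ^ 2) := by
    calc (n : ℝ) ≤ K * D := hnK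
      _ ≤ K * ((K + 1) ^ 2 * (4 * κ / δ ^ 2)) := mul_le_mul_of_nonneg_left hDle hK0
      _ = _ := by ring
  have hle2 : n ≤ ⌈(K : ℝ) * (K + 1) ^ 2 * (4 * κ / δ ^ 2)⌉₊ := by
    have := hle.trans (Nat.le_ceil _)
    exact_mod_cast this
  omega

end Pool.Agent.Helper87.UP
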